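import Mathlib
import Pool.Agent.H97R2.BP.Defs
import Pool.Agent.H97R2.BP.Defs2

open scoped ComplexOrder InnerProductSpace ComplexConjugate TensorProduct
open Finset H759R2.Kad H710R2.DP

noncomputable section

namespace H97R2.BP

namespace ZZ459

section basic

variable {E : Type} [NormedAddCommGroup E] [InnerProductSpace ℂ E]

/-- conjugate linear isometries and inner products -/
theorem inner_conj (F : E ≃ₗᵢ⋆[ℂ] E) (a b : E) : ⟪F a, F b⟫_ℂ = ⟪b, a⟫_ℂ := by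
  have h1 : ‖F a + F b‖ = ‖b + a‖ := by
    rw [← map_add, LinearIsometryEquiv.norm_map, add_comm]
  have h2 : ‖F a - F b‖ = ‖b - a‖ := by
    rw [← map_sub, LinearIsometryEquiv.norm_map, norm_sub_rev]
  have hI : ∀ x : E, Complex.I • F x = F (-(Complex.I • x)) := by
    intro x
    rw [map_neg, LinearIsometryEquiv.map_smulₛₗ, Complex.conj_I, neg_smul, neg_neg]
  have h3 : ‖F a - Complex.I • F b‖ = ‖b - Complex.I • a‖ := by
    rw [hI, ← map_sub, LinearIsometryEquiv.norm_map, sub_neg_eq_add]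
    have h : a + Complex.I • b = Complex.I • (b - Complex.I • a) := by
      rw [smul_sub, smul_smul, Complex.I_mul_I, neg_one_smul, sub_neg_eq_add, add_comm]
    rw [h, norm_smul, Complex.norm_I, one_mul]
  have h4 : ‖F a + Complex.I • F b‖ = ‖b + Complex.I • a‖ := by
    rw [hI, ← map_add, LinearIsometryEquiv.norm_map, ← sub_eq_add_neg]
    have h : a - Complex.I • b = -(Complex.I • (b + Complex.I • a)) := by
      rw [smul_add, smul_smul, Complex.I_mul_I, neg_one_smul]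
      abel
    rw [h, norm_neg, norm_smul, Complex.norm_I, one_mul]
  rw [inner_eq_sum_norm_sq_div_four, inner_eq_sum_norm_sq_div_four]
  simp only [RCLike.I_to_complex]
  rw [h1, h2, h3, h4]

end basic

section tens

variable {H : Type} [NormedAddCommGroup H] [InnerProductSpace ℂ H] [CompleteSpace H]
variable (C : H ≃ₗᵢ⋆[ℂ] H) (hC : IsConj C)

include hC

theorem cj_adj (b : H →L[ℂ] H) (x y : H) : ⟪cj C b x, y⟫_ℂ = ⟪x, cj C (star b) y⟫_ℂ := by
  rw [cj_apply, cj_apply]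
  calc ⟪C (b (C x)), y⟫_ℂ = ⟪C (b (C x)), C (C y)⟫_ℂ := by rw [hC y]
    _ = ⟪C y, b (C x)⟫_ℂ := inner_conj C _ _
    _ = ⟪star b (C y), C x⟫_ℂ := by
        rw [ContinuousLinearMap.star_eq_adjoint, ContinuousLinearMap.adjoint_inner_left]
    _ = ⟪C (C x), C (star b (C y))⟫_ℂ := (inner_conj C _ _).symm
    _ = ⟪x, C (star b (C y))⟫_ℂ := by rw [hC x]

theorem tn_adj (a b : H →L[ℂ] H) (x y : H ⊗[ℂ] H) :
    ⟪tn C a b x, y⟫_ℂ = ⟪x, tn C (star a) (star b) y⟫_ℂ := by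
  induction x using TensorProduct.induction_on with
  | zero => simp
  | add x₁ x₂ h₁ h₂ => rw [map_add, inner_add_left, inner_add_left, h₁, h₂]
  | tmul x₁ x₂ =>
    induction y using TensorProduct.induction_on with
    | zero => simp
    | add y₁ y₂ h₁ h₂ => rw [map_add, inner_add_right, inner_add_right, h₁, h₂]
    | tmul y₁ y₂ =>
      unfold tn
      rw [TensorProduct.mapL_tmul, TensorProduct.mapL_tmul, TensorProduct.inner_tmul,
        TensorProduct.inner_tmul, cj_adj C hC, ContinuousLinearMap.star_eq_adjoint a,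
        ContinuousLinearMap.adjoint_inner_right]

theorem cj_mul (a b : H →L[ℂ] H) : cj C (a * b) = cj C a * cj C b := by
  ext x
  show C (a (b (C x))) = C (a (C (C (b (C x)))))
  rw [hC]

theorem cj_one : cj C (1 : H →L[ℂ] H) = 1 := by
  ext x
  exact hC x

theorem tn_mul (a b a' b' : H →L[ℂ] H) (x : H ⊗[ℂ] H) :
    tn C (a * a') (b * b') x = tn C a b (tn C a' b' x) := by
  unfold tn
  rw [cj_mul C hC, TensorProduct.mapL_mul]
  rfl

theorem tn_one (x : H ⊗[ℂ] H) : tn C 1 1 x = x := by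
  unfold tn
  rw [cj_one C hC]
  induction x using TensorProduct.induction_on with
  | zero => simp
  | add x₁ x₂ h₁ h₂ => rw [map_add, h₁, h₂]
  | tmul x₁ x₂ => rw [TensorProduct.mapL_tmul]; rfl

omit hC in
theorem norm_tn_le (y : H →L[ℂ] H) (x : H ⊗[ℂ] H) : ‖tn C 1 y x‖ ≤ ‖y‖ * ‖x‖ := by
  refine (ContinuousLinearMap.le_opNorm _ _).trans (mul_le_mul_of_nonneg_right ?_ (norm_nonneg _))
  refine (TensorProduct.norm_mapL_le _ _).trans ?_
  have h1 : ‖(1 : H →L[ℂ] H)‖ ≤ 1 := ContinuousLinearMap.norm_id_le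
  have h2 : ‖cj C y‖ ≤ ‖y‖ := LinearMap.mkContinuous_norm_le _ (norm_nonneg _) _
  calc ‖(1 : H →L[ℂ] H)‖ * ‖cj C y‖ ≤ 1 * ‖y‖ := mul_le_mul h1 h2 (norm_nonneg _) zero_le_one
    _ = ‖y‖ := one_mul _

end tens

section forms

variable {H : Type} [NormedAddCommGroup H] [InnerProductSpace ℂ H] [CompleteSpace H]

/-- vector forms are forms -/
theorem kform_vec (C : H ≃ₗᵢ⋆[ℂ] H) (hC : IsConj C)
    (F : (H ⊗[ℂ] H) ≃ₗᵢ⋆[ℂ] (H ⊗[ℂ] H))
    (hF : ∀ a b h, F (tn C a b (F h)) = tn C b a h) (h : H ⊗[ℂ] H) (h1 : ‖h‖ = 1)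
    (hh : F h = h) : KForm (fun x y => ⟪h, tn C x y h⟫_ℂ) := by
  have hpos : ∀ x : H →L[ℂ] H, ⟪h, tn C (star x * x) 1 h⟫_ℂ = ((‖tn C x 1 h‖ ^ 2 : ℝ) : ℂ) := by
    intro x
    have h2 : tn C (star x * x) 1 h = tn C (star x) (star 1) (tn C x 1 h) := by
      rw [← tn_mul C hC, star_one, mul_one]
    rw [h2, ← tn_adj C hC]
    refine (inner_self_eq_norm_sq_to_K (𝕜 := ℂ) (tn C x 1 h)).trans ?_
    push_cast
    rfl
  refine ⟨?_, ?_, ?_, ?_, ?_, ?_⟩
  · intro x x' y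
    show ⟪h, tn C (x + x') y h⟫_ℂ = _
    unfold tn
    rw [TensorProduct.mapL_add_left, ContinuousLinearMap.add_apply, inner_add_right]
  · intro c x y
    show ⟪h, tn C (c • x) y h⟫_ℂ = _
    unfold tn
    rw [TensorProduct.mapL_smul_left, ContinuousLinearMap.smul_apply, inner_smul_right]
  · intro x y
    show ⟪h, tn C y x h⟫_ℂ = conj ⟪h, tn C x y h⟫_ℂ
    rw [← hF x y h, hh]
    calc ⟪h, F (tn C x y h)⟫_ℂ = ⟪F h, F (tn C x y h)⟫_ℂ := by rw [hh]
      _ = ⟪tn C x y h, h⟫_ℂ := inner_conj F _ _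
      _ = conj ⟪h, tn C x y h⟫_ℂ := (inner_conj_symm (𝕜 := ℂ) (tn C x y h) h).symm
  · show ⟪h, tn C 1 1 h⟫_ℂ = 1
    rw [tn_one C hC]
    refine (inner_self_eq_norm_sq_to_K (𝕜 := ℂ) h).trans ?_
    rw [h1]
    norm_num
  · intro x
    show 0 ≤ ⟪h, tn C (star x * x) 1 h⟫_ℂ
    rw [hpos, Complex.nonneg_iff]
    exact ⟨by rw [Complex.ofReal_re]; exact sq_nonneg _, by rw [Complex.ofReal_im]⟩
  · intro a b y
    show ‖⟪h, tn C (star a * b) y h⟫_ℂ‖ ^ 2 ≤ ‖y‖ ^ 2 * (⟪h, tn C (star a * a) 1 h⟫_ℂ).re *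
      (⟪h, tn C (star b * b) 1 h⟫_ℂ).re
    rw [hpos, hpos, Complex.ofReal_re, Complex.ofReal_re]
    have h2 : tn C (star a * b) y h = tn C (star a) (star 1) (tn C 1 y (tn C b 1 h)) := by
      rw [← tn_mul C hC, ← tn_mul C hC]
      simp only [star_one, one_mul, mul_one]
    rw [h2, ← tn_adj C hC]
    have h3 : ‖⟪tn C a 1 h, tn C 1 y (tn C b 1 h)⟫_ℂ‖ ≤ ‖tn C a 1 h‖ * (‖y‖ * ‖tn C b 1 h‖) :=
      (norm_inner_le_norm _ _).trans
        (mul_le_mul_of_nonneg_left (norm_tn_le C y _) (norm_nonneg _))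
    calc ‖⟪tn C a 1 h, tn C 1 y (tn C b 1 h)⟫_ℂ‖ ^ 2
        ≤ (‖tn C a 1 h‖ * (‖y‖ * ‖tn C b 1 h‖)) ^ 2 :=
          pow_le_pow_left₀ (norm_nonneg _) h3 2
      _ = ‖y‖ ^ 2 * ‖tn C a 1 h‖ ^ 2 * ‖tn C b 1 h‖ ^ 2 := by ring

/-- the bound of a form -/
theorem kform_bound {Φ : (H →L[ℂ] H) → (H →L[ℂ] H) → ℂ} (hΦ : KForm Φ) (x y : H →L[ℂ] H) :
    ‖Φ x y‖ ≤ ‖x‖ * ‖y‖ := by
  obtain ⟨b, hb⟩ := CStarAlgebra.nonneg_iff_eq_star_mul_self.mp
    (sub_nonneg.mpr (CStarAlgebra.star_mul_le_algebraMap_norm_sq (a := x)))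
  have h1 : (Φ (star x * x) 1).re ≤ ‖x‖ ^ 2 := by
    have h2 := hΦ.pos b
    rw [← hb] at h2
    have h3 : (algebraMap ℝ (H →L[ℂ] H) (‖x‖ ^ 2) - star x * x) =
        (((‖x‖ ^ 2 : ℝ) : ℂ) • (1 : H →L[ℂ] H)) + (-1 : ℂ) • (star x * x) := by
      rw [neg_one_smul, ← sub_eq_add_neg]
      congr 1
    rw [h3, hΦ.add_left, hΦ.smul_left, hΦ.smul_left, hΦ.one, Complex.nonneg_iff] at h2
    have h4 := h2.1
    simp only [Complex.add_re, mul_one, Complex.ofReal_re, neg_mul, one_mul, Complex.neg_re] at h4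
    linarith
  have h2 := hΦ.bd 1 x y
  rw [star_one, one_mul, one_mul, hΦ.one] at h2
  have h3 : ‖Φ x y‖ ^ 2 ≤ (‖x‖ * ‖y‖) ^ 2 := by
    refine h2.trans ?_
    rw [Complex.one_re, mul_one]
    calc ‖y‖ ^ 2 * (Φ (star x * x) 1).re ≤ ‖y‖ ^ 2 * ‖x‖ ^ 2 :=
          mul_le_mul_of_nonneg_left h1 (sq_nonneg _)
      _ = (‖x‖ * ‖y‖) ^ 2 := by ring
  exact le_of_sq_le_sq h3 (by positivity)

/-- forms are a convex set -/
theorem kform_convex {Φ Ψ : (H →L[ℂ] H) → (H →L[ℂ] H) → ℂ} (hΦ : KForm Φ) (hΨ : KForm Ψ)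
    (l m : ℝ) (hl : 0 ≤ l) (hm : 0 ≤ m) (hlm : l + m = 1) :
    KForm (fun x y => (l : ℂ) * Φ x y + (m : ℂ) * Ψ x y) := by
  refine ⟨?_, ?_, ?_, ?_, ?_, ?_⟩
  · intro x x' y
    show (l : ℂ) * Φ (x + x') y + (m : ℂ) * Ψ (x + x') y = _
    rw [hΦ.add_left, hΨ.add_left]
    ring
  · intro c x y
    show (l : ℂ) * Φ (c • x) y + (m : ℂ) * Ψ (c • x) y = _
    rw [hΦ.smul_left, hΨ.smul_left]
    ring
  · intro x y
    show (l : ℂ) * Φ y x + (m : ℂ) * Ψ y x = _
    rw [hΦ.symm x y, hΨ.symm x y, map_add, map_mul, map_mul, Complex.conj_ofReal,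
      Complex.conj_ofReal]
  · show (l : ℂ) * Φ 1 1 + (m : ℂ) * Ψ 1 1 = 1
    rw [hΦ.one, hΨ.one, mul_one, mul_one]
    exact_mod_cast hlm
  · intro x
    show 0 ≤ (l : ℂ) * Φ (star x * x) 1 + (m : ℂ) * Ψ (star x * x) 1
    have h1 : (0 : ℂ) ≤ (l : ℂ) := by exact_mod_cast hl
    have h2 : (0 : ℂ) ≤ (m : ℂ) := by exact_mod_cast hm
    exact add_nonneg (mul_nonneg h1 (hΦ.pos x)) (mul_nonneg h2 (hΨ.pos x))
  · intro a b y
    show ‖(l : ℂ) * Φ (star a * b) y + (m : ℂ) * Ψ (star a * b) y‖ ^ 2 ≤ ‖y‖ ^ 2 *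
      ((l : ℂ) * Φ (star a * a) 1 + (m : ℂ) * Ψ (star a * a) 1).re *
      ((l : ℂ) * Φ (star b * b) 1 + (m : ℂ) * Ψ (star b * b) 1).re
    have h1 := hΦ.bd a b y
    have h2 := hΨ.bd a b y
    have pa := (Complex.nonneg_iff.mp (hΦ.pos a)).1
    have pb := (Complex.nonneg_iff.mp (hΦ.pos b)).1
    have qa := (Complex.nonneg_iff.mp (hΨ.pos a)).1
    have qb := (Complex.nonneg_iff.mp (hΨ.pos b)).1
    simp only [Complex.add_re, Complex.re_ofReal_mul]
    set P := (Φ (star a * a) 1).re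
    set P' := (Φ (star b * b) 1).re
    set R := (Ψ (star a * a) 1).re
    set R' := (Ψ (star b * b) 1).re
    set U := ‖Φ (star a * b) y‖
    set V := ‖Ψ (star a * b) y‖
    have hU : 0 ≤ U := norm_nonneg _
    have hV : 0 ≤ V := norm_nonneg _
    have hY : 0 ≤ ‖y‖ ^ 2 := sq_nonneg _
    have h3 : ‖(l : ℂ) * Φ (star a * b) y + (m : ℂ) * Ψ (star a * b) y‖ ≤ l * U + m * V := by
      refine (norm_add_le _ _).trans ?_
      rw [norm_mul, norm_mul, Complex.norm_real, Complex.norm_real, Real.norm_of_nonneg hl,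
        Real.norm_of_nonneg hm]
    have h4 : 2 * (U * V) ≤ ‖y‖ ^ 2 * (P * R' + R * P') := by
      have h5 : (2 * (U * V)) ^ 2 ≤ (‖y‖ ^ 2 * (P * R' + R * P')) ^ 2 := by
        have h6 : U ^ 2 * V ^ 2 ≤ (‖y‖ ^ 2 * P * P') * (‖y‖ ^ 2 * R * R') :=
          mul_le_mul h1 h2 (sq_nonneg _) (by positivity)
        nlinarith [mul_nonneg (mul_nonneg hY hY) (sq_nonneg (P * R' - R * P'))]
      exact le_of_sq_le_sq h5 (by positivity)
    calc ‖(l : ℂ) * Φ (star a * b) y + (m : ℂ) * Ψ (star a * b) y‖ ^ 2 ≤ (l * U + m * V) ^ 2 :=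
          pow_le_pow_left₀ (norm_nonneg _) h3 2
      _ = l ^ 2 * U ^ 2 + m ^ 2 * V ^ 2 + l * m * (2 * (U * V)) := by ring
      _ ≤ l ^ 2 * (‖y‖ ^ 2 * P * P') + m ^ 2 * (‖y‖ ^ 2 * R * R') +
          l * m * (‖y‖ ^ 2 * (P * R' + R * P')) := by
          have := mul_le_mul_of_nonneg_left h1 (sq_nonneg l)
          have := mul_le_mul_of_nonneg_left h2 (sq_nonneg m)
          have := mul_le_mul_of_nonneg_left h4 (mul_nonneg hl hm)
          linarith
      _ = ‖y‖ ^ 2 * (l * P + m * R) * (l * P' + m * R') := by ring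

/-- the set of forms -/
def KF (H : Type) [NormedAddCommGroup H] [InnerProductSpace ℂ H] [CompleteSpace H] :
    Set ((H →L[ℂ] H) → (H →L[ℂ] H) → ℂ) := {Φ | KForm Φ}

theorem cont_app (x y : H →L[ℂ] H) :
    Continuous (fun Φ : (H →L[ℂ] H) → (H →L[ℂ] H) → ℂ => Φ x y) :=
  continuous_apply_apply x y

theorem kf_closed : IsClosed (KF H) := by
  have h : KF H =
      (⋂ (x : H →L[ℂ] H) (x' : H →L[ℂ] H) (y : H →L[ℂ] H),
        {Φ | Φ (x + x') y = Φ x y + Φ x' y}) ∩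
      ((⋂ (c : ℂ) (x : H →L[ℂ] H) (y : H →L[ℂ] H), {Φ | Φ (c • x) y = c * Φ x y}) ∩
      ((⋂ (x : H →L[ℂ] H) (y : H →L[ℂ] H), {Φ | Φ y x = conj (Φ x y)}) ∩
      ({Φ | Φ 1 1 = 1} ∩
      ((⋂ (x : H →L[ℂ] H), {Φ | 0 ≤ (Φ (star x * x) 1).re ∧ 0 = (Φ (star x * x) 1).im}) ∩
      (⋂ (a : H →L[ℂ] H) (b : H →L[ℂ] H) (y : H →L[ℂ] H), {Φ | ‖Φ (star a * b) y‖ ^ 2 ≤
        ‖y‖ ^ 2 * (Φ (star a * a) 1).re * (Φ (star b * b) 1).re}))))) := by
    ext Φ
    simp only [Set.mem_inter_iff, Set.mem_iInter, Set.mem_setOf_eq]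
    constructor
    · intro hΦ
      have hΦ : KForm Φ := hΦ
      exact ⟨hΦ.add_left, hΦ.smul_left, hΦ.symm, hΦ.one,
        fun x => Complex.nonneg_iff.mp (hΦ.pos x), hΦ.bd⟩
    · rintro ⟨h1, h2, h3, h4, h5, h6⟩
      exact (⟨h1, h2, h3, h4, fun x => Complex.nonneg_iff.mpr (h5 x), h6⟩ : KForm Φ)
  rw [h]
  refine IsClosed.inter (isClosed_iInter fun x => isClosed_iInter fun x' =>
    isClosed_iInter fun y => isClosed_eq (cont_app _ _) ((cont_app _ _).add (cont_app _ _))) ?_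
  refine IsClosed.inter (isClosed_iInter fun c => isClosed_iInter fun x =>
    isClosed_iInter fun y => isClosed_eq (cont_app _ _) (continuous_const.mul (cont_app _ _))) ?_
  refine IsClosed.inter (isClosed_iInter fun x => isClosed_iInter fun y =>
    isClosed_eq (cont_app _ _) (Complex.continuous_conj.comp (cont_app _ _))) ?_
  refine IsClosed.inter (isClosed_eq (cont_app _ _) continuous_const) ?_
  refine IsClosed.inter (isClosed_iInter fun x => IsClosed.inter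
    (isClosed_le continuous_const (Complex.continuous_re.comp (cont_app _ _)))
    (isClosed_eq continuous_const (Complex.continuous_im.comp (cont_app _ _)))) ?_
  exact isClosed_iInter fun a => isClosed_iInter fun b => isClosed_iInter fun y =>
    isClosed_le ((continuous_norm.comp (cont_app _ _)).pow 2)
      ((continuous_const.mul (Complex.continuous_re.comp (cont_app _ _))).mul
        (Complex.continuous_re.comp (cont_app _ _)))

theorem kf_compact : IsCompact (KF H) := by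
  have h1 : IsCompact (Set.pi Set.univ (fun x : H →L[ℂ] H =>
      Set.pi Set.univ (fun y : H →L[ℂ] H => Metric.closedBall (0 : ℂ) (‖x‖ * ‖y‖)))) :=
    isCompact_univ_pi fun x => isCompact_univ_pi fun y => isCompact_closedBall _ _
  refine h1.of_isClosed_subset kf_closed ?_
  intro Φ hΦ x _ y _
  rw [mem_closedBall_zero_iff]
  exact kform_bound hΦ x y

end forms

end ZZ459

open ZZ459 in
theorem bp_form : Z_form := by
  intro H _ _ _ C hC F hFC hF X y s hyp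
  -- finite subfamilies
  have hfin : ∀ (n : ℕ) (i : Fin n → X), ∃ Φ ∈ KF H, ∀ k, s (i k) ≤ (Φ (y (i k)) (y (i k))).re := by
    intro n i
    by_contra hcon
    push Not at hcon
    let v : ((H →L[ℂ] H) → (H →L[ℂ] H) → ℂ) → (Fin n → ℝ) :=
      fun Φ k => (Φ (y (i k)) (y (i k))).re
    have hv : Continuous v := continuous_pi fun k => Complex.continuous_re.comp (cont_app _ _)
    have hVc : IsCompact (v '' KF H) := kf_compact.image hv
    have hVx : Convex ℝ (v '' KF H) := by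
      rintro _ ⟨Φ, hΦ, rfl⟩ _ ⟨Ψ, hΨ, rfl⟩ l m hl hm hlm
      refine ⟨_, kform_convex hΦ hΨ l m hl hm hlm, ?_⟩
      funext k
      show ((l : ℂ) * Φ (y (i k)) (y (i k)) + (m : ℂ) * Ψ (y (i k)) (y (i k))).re =
        l * (Φ (y (i k)) (y (i k))).re + m * (Ψ (y (i k)) (y (i k))).re
      rw [Complex.add_re, Complex.re_ofReal_mul, Complex.re_ofReal_mul]
    let D : Set (Fin n → ℝ) := {w | ∀ k, s (i k) ≤ w k}
    have hDx : Convex ℝ D := by
      intro w hw w' hw' l m hl hm hlm k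
      show s (i k) ≤ l * w k + m * w' k
      have h1 : s (i k) = l * s (i k) + m * s (i k) := by rw [← add_mul, hlm, one_mul]
      rw [h1]
      exact add_le_add (mul_le_mul_of_nonneg_left (hw k) hl) (mul_le_mul_of_nonneg_left (hw' k) hm)
    have hDc : IsClosed D := by
      have h1 : D = ⋂ k, {w : Fin n → ℝ | s (i k) ≤ w k} := by
        ext w
        simp only [D, Set.mem_iInter, Set.mem_setOf_eq]
      rw [h1]
      exact isClosed_iInter fun k => isClosed_le continuous_const (continuous_apply k)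
    have hdis : Disjoint (v '' KF H) D := by
      rw [Set.disjoint_left]
      rintro _ ⟨Φ, hΦ, rfl⟩ hD
      obtain ⟨k, hk⟩ := hcon Φ hΦ
      exact absurd (hD k) (not_le.mpr hk)
    obtain ⟨f, u, w, hfu, huw, hfw⟩ := geometric_hahn_banach_compact_closed hVx hVc hDx hDc hdis
    let e : Fin n → (Fin n → ℝ) := fun k => Pi.single k 1
    have hfe : ∀ z : Fin n → ℝ, f z = ∑ k, f (e k) * z k := by
      intro z
      have h1 : z = ∑ k, z k • e k := by
        funext j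
        simp [e, Finset.sum_apply, Pi.single_apply]
      conv_lhs => rw [h1]
      rw [map_sum]
      refine Finset.sum_congr rfl fun k _ => ?_
      rw [map_smul, smul_eq_mul, mul_comm]
    let s0 : Fin n → ℝ := fun k => s (i k)
    have hs0 : s0 ∈ D := fun k => le_rfl
    have hl0 : ∀ k, 0 ≤ f (e k) := by
      intro k
      by_contra hneg
      push Not at hneg
      have h1 : ∀ t : ℝ, 0 ≤ t → s0 + t • e k ∈ D := by
        intro t ht j
        show s (i j) ≤ s (i j) + t * (e k j)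
        have h2 : 0 ≤ e k j := by
          show 0 ≤ (Pi.single k (1 : ℝ) : Fin n → ℝ) j
          rw [Pi.single_apply]
          split_ifs <;> norm_num
        have := mul_nonneg ht h2
        linarith
      have h2 : ∀ t : ℝ, 0 ≤ t → w < f s0 + t * f (e k) := by
        intro t ht
        have := hfw _ (h1 t ht)
        rwa [map_add, map_smul, smul_eq_mul] at this
      have h3 := h2 ((f s0 - w) / (-(f (e k)))) (by
        have h4 := hfw _ hs0
        apply div_nonneg <;> linarith)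
      have h5 : (f s0 - w) / (-(f (e k))) * f (e k) = -(f s0 - w) := by
        have h6 : f (e k) ≠ 0 := hneg.ne
        field_simp
      rw [h5] at h3
      linarith
    obtain ⟨h, hh1, hh2, hh3⟩ := hyp n i (fun k => f (e k)) hl0 (w - u) (by linarith)
    have hK : KForm (fun x y => ⟪h, tn C x y h⟫_ℂ) := kform_vec C hC F hF h hh1 hh2
    have h7 := hfu _ ⟨_, hK, rfl⟩
    have h8 := hfw _ hs0
    rw [hfe] at h7 h8
    have h9 : ∑ k, f (e k) * s0 k = ∑ k, f (e k) * s (i k) := rfl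
    have h10 : ∑ k, f (e k) * v (fun x y => ⟪h, tn C x y h⟫_ℂ) k =
      ∑ k, f (e k) * (⟪h, tn C (y (i k)) (y (i k)) h⟫_ℂ).re := rfl
    rw [h9] at h8
    rw [h10] at h7
    linarith
  have hall := IsCompact.inter_iInter_nonempty (kf_compact (H := H))
    (fun x : X => {Φ | s x ≤ (Φ (y x) (y x)).re})
    (fun x => isClosed_le continuous_const (Complex.continuous_re.comp (cont_app _ _)))
    (fun u => by
      obtain ⟨Φ, hΦ, h1⟩ := hfin u.card (fun k => (u.equivFin.symm k : X))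
      refine ⟨Φ, hΦ, ?_⟩
      simp only [Set.mem_iInter, Set.mem_setOf_eq]
      intro x hx
      have h2 := h1 (u.equivFin ⟨x, hx⟩)
      rwa [Equiv.symm_apply_apply] at h2)
  obtain ⟨Φ, hΦ, h1⟩ := hall
  refine ⟨Φ, hΦ, fun x => ?_⟩
  exact Set.mem_iInter.mp h1 x

end H97R2.BP
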